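import Pool.Agent.Q142.FM.RS

set_option autoImplicit false

/-! Groups with finitely many conjugacy classes: normal subgroups, quotients, subgroups of finite
index. -/

namespace Pool.Agent.Q142.FM

variable {G : Type} [Group G]

theorem out_conj (x : G) : ∃ g : G, Quotient.out (ConjClasses.mk x) = g * x * g⁻¹ := by
  have h1 : IsConj x (Quotient.out (ConjClasses.mk x)) := by
    rw [← ConjClasses.mk_eq_mk_iff_isConj]
    exact (Quotient.out_eq (ConjClasses.mk x)).symm
  obtain ⟨g, hg⟩ := isConj_iff.1 h1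
  exact ⟨g, hg.symm⟩

theorem finite_normal [Finite (ConjClasses G)] : {N : Subgroup G | N.Normal}.Finite := by
  have hinj : Set.InjOn (fun N : Subgroup G => {c : ConjClasses G | Quotient.out c ∈ N})
      {N : Subgroup G | N.Normal} := by
    have key : ∀ N M : Subgroup G, N.Normal → M.Normal →
        {c : ConjClasses G | Quotient.out c ∈ N} = {c : ConjClasses G | Quotient.out c ∈ M} →
        N ≤ M := by
      intro N M hN hM h x hx
      obtain ⟨g, hg⟩ := out_conj x
      have h1 : ConjClasses.mk x ∈ {c : ConjClasses G | Quotient.out c ∈ N} := by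
        show Quotient.out (ConjClasses.mk x) ∈ N
        rw [hg]
        exact hN.conj_mem x hx g
      rw [h] at h1
      have h2 : Quotient.out (ConjClasses.mk x) ∈ M := h1
      rw [hg] at h2
      have h3 := hM.conj_mem _ h2 g⁻¹
      have h4 : g⁻¹ * (g * x * g⁻¹) * g⁻¹⁻¹ = x := by group
      rwa [h4] at h3
    intro N hN M hM h
    exact le_antisymm (key N M hN hM h) (key M N hM hN h.symm)
  exact Set.Finite.of_injOn (Set.mapsTo_univ _ _) hinj (Set.toFinite Set.univ)

theorem fng_normal [Finite (ConjClasses G)] (N : Subgroup G) (hN : N.Normal) :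
    N.IsFinitelyNormallyGenerated := by
  refine ⟨{x | x ∈ N ∧ ∃ c : ConjClasses G, Quotient.out c = x}, ?_, ?_⟩
  · exact (Set.finite_range (fun c : ConjClasses G => Quotient.out c)).subset
      (fun x hx => hx.2)
  · apply le_antisymm
    · exact Subgroup.normalClosure_le_normal (fun x hx => hx.1)
    · intro x hx
      obtain ⟨g, hg⟩ := out_conj x
      have h1 : Quotient.out (ConjClasses.mk x) ∈
          {x | x ∈ N ∧ ∃ c : ConjClasses G, Quotient.out c = x} :=
        ⟨by rw [hg]; exact hN.conj_mem x hx g, _, rfl⟩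
      have h2 := Subgroup.subset_normalClosure h1
      rw [SetLike.mem_coe, hg] at h2
      have h3 := Subgroup.normalClosure_normal.conj_mem _ h2 g⁻¹
      have h4 : g⁻¹ * (g * x * g⁻¹) * g⁻¹⁻¹ = x := by group
      rwa [h4] at h3

theorem fin_quot [Finite (ConjClasses G)] (N : Subgroup G) [N.Normal] :
    Finite (ConjClasses (G ⧸ N)) :=
  Finite.of_surjective _ (ConjClasses.map_surjective (f := QuotientGroup.mk' N)
    (QuotientGroup.mk'_surjective N))

theorem fin_sub [Finite (ConjClasses G)] (M : Subgroup G) (hM : M.FiniteIndex) :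
    Finite (ConjClasses M) := by
  classical
  have hQ : Finite (G ⧸ M) := Subgroup.finite_quotient_of_finiteIndex
  let f : ConjClasses G × (G ⧸ M) → ConjClasses M := fun x =>
    if h : (x.2.out)⁻¹ * Quotient.out x.1 * x.2.out ∈ M then
      ConjClasses.mk ⟨(x.2.out)⁻¹ * Quotient.out x.1 * x.2.out, h⟩ else ConjClasses.mk 1
  refine Finite.of_surjective f ?_
  intro c
  obtain ⟨x, rfl⟩ := ConjClasses.mk_surjective c
  obtain ⟨g, hg⟩ := out_conj (x : G)
  let q : G ⧸ M := QuotientGroup.mk g
  have hq : (q.out)⁻¹ * g ∈ M := by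
    rw [← QuotientGroup.eq]
    exact QuotientGroup.out_eq' q
  refine ⟨(ConjClasses.mk (x : G), q), ?_⟩
  have h1 : (q.out)⁻¹ * Quotient.out (ConjClasses.mk (x : G)) * q.out =
      ((q.out)⁻¹ * g) * x * ((q.out)⁻¹ * g)⁻¹ := by
    rw [hg]
    group
  have h2 : (q.out)⁻¹ * Quotient.out (ConjClasses.mk (x : G)) * q.out ∈ M := by
    rw [h1]
    exact M.mul_mem (M.mul_mem hq x.2) (M.inv_mem hq)
  show (if h : (q.out)⁻¹ * Quotient.out (ConjClasses.mk (x : G)) * q.out ∈ M then
      ConjClasses.mk (⟨(q.out)⁻¹ * Quotient.out (ConjClasses.mk (x : G)) * q.out, h⟩ : M)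
      else ConjClasses.mk 1) = ConjClasses.mk x
  rw [dif_pos h2, ConjClasses.mk_eq_mk_iff_isConj, isConj_comm, isConj_iff]
  exact ⟨⟨(q.out)⁻¹ * g, hq⟩, Subtype.ext h1.symm⟩

/-- The finite residual. -/
theorem exists_res [Finite (ConjClasses G)] : ∃ M : Subgroup G, M.Normal ∧ M.FiniteIndex ∧
    ∀ H : Subgroup M, H.FiniteIndex → H = ⊤ := by
  have hfin : {N : Subgroup G | N.Normal ∧ N.FiniteIndex}.Finite :=
    finite_normal.subset (fun N hN => hN.1)
  have hF : Finite {N : Subgroup G | N.Normal ∧ N.FiniteIndex} := hfin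
  let M : Subgroup G := ⨅ N : {N : Subgroup G | N.Normal ∧ N.FiniteIndex}, (N : Subgroup G)
  have hMn : M.Normal := Subgroup.normal_iInf_normal (fun N => N.2.1)
  have hMf : M.FiniteIndex := Subgroup.finiteIndex_iInf (fun N => N.2.2)
  refine ⟨M, hMn, hMf, fun H hH => ?_⟩
  have h1 : (H.map M.subtype).FiniteIndex := by
    constructor
    rw [Subgroup.index_map_subtype]
    exact Nat.mul_ne_zero hH.index_ne_zero hMf.index_ne_zero
  have h2 : (H.map M.subtype).normalCore.FiniteIndex := inferInstance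
  have h3 : M ≤ (H.map M.subtype).normalCore :=
    iInf_le (fun N : {N : Subgroup G | N.Normal ∧ N.FiniteIndex} => (N : Subgroup G))
      ⟨(H.map M.subtype).normalCore, Subgroup.normalCore_normal _, h2⟩
  rw [eq_top_iff]
  intro x _
  obtain ⟨y, hy, hyx⟩ := (h3.trans (Subgroup.normalCore_le _)) x.2
  have : y = x := Subtype.ext hyx
  rw [← this]
  exact hy

/-- A simple quotient. -/
theorem exists_simple [Finite (ConjClasses G)] [Nontrivial G] :
    ∃ (K : Subgroup G) (_ : K.Normal), K ≠ ⊤ ∧ IsSimpleGroup (G ⧸ K) := by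
  have hfin : {N : Subgroup G | N.Normal ∧ N ≠ ⊤}.Finite :=
    finite_normal.subset (fun N hN => hN.1)
  have hne : {N : Subgroup G | N.Normal ∧ N ≠ ⊤}.Nonempty := ⟨⊥, inferInstance, bot_ne_top⟩
  obtain ⟨K, hK⟩ := hfin.exists_maximal hne
  have hKn : K.Normal := hK.prop.1
  refine ⟨K, hKn, hK.prop.2, ?_⟩
  have hnt : Nontrivial (G ⧸ K) := QuotientGroup.nontrivial_iff.2 hK.prop.2
  refine { exists_pair_ne := hnt.exists_pair_ne, eq_bot_or_eq_top_of_normal := ?_ }
  intro N hN
  have hc : (N.comap (QuotientGroup.mk' K)).Normal := hN.comap _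
  have hle : K ≤ N.comap (QuotientGroup.mk' K) := by
    intro x hx
    have : (QuotientGroup.mk' K) x = 1 := (QuotientGroup.eq_one_iff x).2 hx
    rw [Subgroup.mem_comap, this]
    exact one_mem N
  by_cases ht : N.comap (QuotientGroup.mk' K) = ⊤
  · right
    rw [eq_top_iff]
    intro y _
    obtain ⟨x, rfl⟩ := QuotientGroup.mk'_surjective K y
    have : x ∈ N.comap (QuotientGroup.mk' K) := by rw [ht]; trivial
    exact this
  · left
    have h1 : N.comap (QuotientGroup.mk' K) ≤ K := hK.le_of_ge ⟨hc, ht⟩ hle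
    rw [eq_bot_iff]
    intro y hy
    obtain ⟨x, rfl⟩ := QuotientGroup.mk'_surjective K y
    exact Subgroup.mem_bot.2 ((QuotientGroup.eq_one_iff x).2 (h1 hy))

end Pool.Agent.Q142.FM
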