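import Pool.Agent.Q142.FM.Rat

set_option autoImplicit false

/-! Balls and exponential growth from a distorted element. -/

namespace Pool.Agent.Q142.FM

variable {G : Type} [Group G]

/-- The ball of radius `r` for the word length with respect to `S`. -/
def ball (S : Set G) (r : ℕ) : Set G :=
  {g | ∃ l : List G, l.length ≤ r ∧ (∀ x ∈ l, x ∈ S ∨ x⁻¹ ∈ S) ∧ l.prod = g}

theorem ball_one (S : Set G) (r : ℕ) : (1 : G) ∈ ball S r :=
  ⟨[], Nat.zero_le _, by simp, rfl⟩

theorem ball_mul {S : Set G} {r s : ℕ} {g h : G} (hg : g ∈ ball S r) (hh : h ∈ ball S s) :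
    g * h ∈ ball S (r + s) := by
  obtain ⟨l, h1, h2, rfl⟩ := hg
  obtain ⟨l', h1', h2', rfl⟩ := hh
  refine ⟨l ++ l', ?_, ?_, List.prod_append⟩
  · rw [List.length_append]
    omega
  · intro x hx
    rcases List.mem_append.1 hx with h | h
    · exact h2 x h
    · exact h2' x h

theorem ball_mono {S : Set G} {r s : ℕ} (h : r ≤ s) : ball S r ⊆ ball S s := by
  rintro g ⟨l, h1, h2, h3⟩
  exact ⟨l, h1.trans h, h2, h3⟩

theorem ball_fin {S : Set G} (hS : S.Finite) (r : ℕ) : (ball S r).Finite := by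
  let T : Set G := S ∪ S⁻¹
  have hT : T.Finite := hS.union hS.inv
  have : Finite T := hT
  have h1 : ({l : List T | l.length ≤ r}).Finite := List.finite_length_le T r
  refine (h1.image (fun l => (l.map Subtype.val).prod)).subset ?_
  rintro g ⟨l, h1, h2, rfl⟩
  have h3 : ∀ x ∈ l, x ∈ T := fun x hx => (h2 x hx).imp id id
  refine ⟨l.attach.map (fun x => ⟨x.1, h3 x.1 x.2⟩), ?_, ?_⟩
  · simpa using h1
  · simp [List.map_map, Function.comp_def]

theorem ball_ex {S : Set G} (hS : Subgroup.closure S = ⊤) (g : G) : ∃ r, g ∈ ball S r := by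
  have hg : g ∈ Subgroup.closure S := by rw [hS]; trivial
  induction hg using Subgroup.closure_induction with
  | mem x hx => exact ⟨1, [x], by simp, by simp [hx], by simp⟩
  | one => exact ⟨0, ball_one S 0⟩
  | mul x y _ _ hx hy =>
    obtain ⟨r, hr⟩ := hx
    obtain ⟨s, hs⟩ := hy
    exact ⟨r + s, ball_mul hr hs⟩
  | inv x _ hx =>
    obtain ⟨r, l, h1, h2, rfl⟩ := hx
    refine ⟨r, (l.map (fun x => x⁻¹)).reverse, by simpa using h1, ?_, ?_⟩
    · intro x hx
      rw [List.mem_reverse, List.mem_map] at hx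
      obtain ⟨z, hz, rfl⟩ := hx
      rw [inv_inv]
      exact (h2 z hz).symm
    · rw [List.prod_inv_reverse]

/-- Exponents with binary digits in base `M`. -/
def dg (M : ℕ) : ℕ → Finset ℕ
  | 0 => {0}
  | k + 1 => (dg M k).image (fun n => M * n) ∪ (dg M k).image (fun n => 1 + M * n)

theorem dg_card {M : ℕ} (hM : 2 ≤ M) (k : ℕ) : (dg M k).card = 2 ^ k := by
  induction k with
  | zero => simp [dg]
  | succ k ih =>
    have h1 : Function.Injective (fun n : ℕ => M * n) := fun a b h =>
      Nat.eq_of_mul_eq_mul_left (by omega) h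
    have h2 : Function.Injective (fun n : ℕ => 1 + M * n) := fun a b h =>
      Nat.eq_of_mul_eq_mul_left (show 0 < M by omega) (Nat.add_left_cancel h)
    rw [dg, Finset.card_union_of_disjoint, Finset.card_image_of_injective _ h1,
      Finset.card_image_of_injective _ h2, ih, pow_succ]
    · ring
    · rw [Finset.disjoint_left]
      intro x hx hx'
      rw [Finset.mem_image] at hx hx'
      obtain ⟨a, -, rfl⟩ := hx
      obtain ⟨c, -, h⟩ := hx'
      have h3 : (1 + M * c) % M = (M * a) % M := by rw [h]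
      rw [Nat.add_mul_mod_self_left, Nat.mul_mod_right, Nat.mod_eq_of_lt (by omega)] at h3
      omega

theorem dg_ball {S : Set G} {b g : G} {M L₁ L₂ L₃ : ℕ} (hg : g * b * g⁻¹ = b ^ M)
    (h1 : b ∈ ball S L₁) (h2 : g ∈ ball S L₂) (h3 : g⁻¹ ∈ ball S L₃) (k : ℕ) :
    ∀ n ∈ dg M k, b ^ n ∈ ball S (k * (L₁ + L₂ + L₃)) := by
  induction k with
  | zero =>
    intro n hn
    rw [dg, Finset.mem_singleton] at hn
    subst hn
    rw [pow_zero]
    exact ball_one _ _
  | succ k ih =>
    intro n hn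
    have key : ∀ m ∈ dg M k, b ^ (M * m) ∈ ball S (L₂ + k * (L₁ + L₂ + L₃) + L₃) := by
      intro m hm
      rw [pow_mul, ← hg, conj_pow]
      exact ball_mul (ball_mul h2 (ih m hm)) h3
    rw [dg, Finset.mem_union, Finset.mem_image, Finset.mem_image] at hn
    rcases hn with ⟨m, hm, rfl⟩ | ⟨m, hm, rfl⟩
    · exact ball_mono (by ring_nf; omega) (key m hm)
    · rw [pow_add, pow_one]
      exact ball_mono (le_of_eq (by ring)) (ball_mul h1 (key m hm))

/-- Exponential growth. -/
theorem exp_growth {S : Set G} (hSf : S.Finite) (hS : Subgroup.closure S = ⊤) {b g : G} {M : ℕ}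
    (hM : 2 ≤ M) (hb : ∀ n : ℕ, 0 < n → b ^ n ≠ 1) (hg : g * b * g⁻¹ = b ^ M) :
    ∃ c : ℝ, 0 < c ∧ ∀ r : ℕ, Real.exp (c * r) ≤ ((ball S r).ncard : ℝ) := by
  obtain ⟨L₁, h1⟩ := ball_ex hS b
  obtain ⟨L₂, h2⟩ := ball_ex hS g
  obtain ⟨L₃, h3⟩ := ball_ex hS g⁻¹
  have hinj : Function.Injective (fun n : ℕ => b ^ n) := by
    have : ¬ IsOfFinOrder b := by
      rw [isOfFinOrder_iff_pow_eq_one]
      rintro ⟨n, hn, h⟩
      exact hb n hn h
    exact injective_pow_iff_not_isOfFinOrder.2 this
  set L := L₁ + L₂ + L₃ + 1 with hL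
  have hpow : ∀ k : ℕ, 2 ^ k ≤ (ball S (k * L)).ncard := by
    intro k
    rw [← dg_card hM k, ← Set.ncard_coe_finset, ← Set.ncard_image_of_injective _ hinj]
    apply Set.ncard_le_ncard _ (ball_fin hSf _)
    rintro _ ⟨n, hn, rfl⟩
    exact ball_mono (Nat.mul_le_mul_left k (by omega))
      (dg_ball hg h1 h2 h3 k n (by simpa using hn))
  have htwo : ∀ r : ℕ, 1 ≤ r → 2 ≤ (ball S r).ncard := by
    intro r hr
    have hex : ∃ s ∈ S, s ≠ 1 := by
      by_contra hcon
      push Not at hcon
      have h4 : Subgroup.closure S ≤ ⊥ := by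
        rw [Subgroup.closure_le]
        intro x hx
        exact hcon x hx
      rw [hS] at h4
      have h5 : b = 1 := Subgroup.mem_bot.1 (h4 (Subgroup.mem_top b))
      exact hb 1 one_pos (by rw [h5, one_pow])
    obtain ⟨s, hs, hs1⟩ := hex
    have h6 : ({1, s} : Set G) ⊆ ball S r := by
      rintro x (rfl | rfl)
      · exact ball_one _ _
      · exact ⟨[x], by simpa using hr, by simp [hs], by simp⟩
    calc 2 = ({1, s} : Set G).ncard := (Set.ncard_pair (Ne.symm hs1)).symm
      _ ≤ _ := Set.ncard_le_ncard h6 (ball_fin hSf _)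
  have hlog : 0 < Real.log 2 := Real.log_pos (by norm_num)
  have hLpos : (0 : ℝ) < L := by rw [hL]; positivity
  refine ⟨Real.log 2 / (2 * L), by positivity, fun r => ?_⟩
  rcases Nat.eq_zero_or_pos r with hr0 | hr0
  · subst hr0
    rw [Nat.cast_zero, mul_zero, Real.exp_zero]
    have : 0 < (ball S 0).ncard := (Set.ncard_pos (ball_fin hSf _)).2 ⟨1, ball_one _ _⟩
    exact_mod_cast this
  rcases lt_or_ge r L with hrL | hrL
  · have h7 : Real.exp (Real.log 2 / (2 * L) * r) ≤ Real.exp (Real.log 2) := by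
      apply Real.exp_le_exp.2
      have h8 : (r : ℝ) ≤ L := by exact_mod_cast hrL.le
      rw [div_mul_eq_mul_div, div_le_iff₀ (by positivity)]
      nlinarith
    rw [Real.exp_log (by norm_num)] at h7
    refine h7.trans ?_
    exact_mod_cast htwo r hr0
  · set k := r / L with hk
    have hk1 : 1 ≤ k := by
      rw [hk]
      exact Nat.div_pos hrL (by omega)
    have h9 : r < L * (k + 1) := by
      have := Nat.lt_mul_div_succ r (show 0 < L by omega)
      exact this
    have h10 : (r : ℝ) ≤ 2 * L * k := by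
      have : r ≤ 2 * L * k := by nlinarith
      exact_mod_cast this
    have h11 : Real.exp (Real.log 2 / (2 * L) * r) ≤ Real.exp (k * Real.log 2) := by
      apply Real.exp_le_exp.2
      rw [div_mul_eq_mul_div, div_le_iff₀ (by positivity)]
      nlinarith
    refine h11.trans ?_
    rw [← Real.log_pow, Real.exp_log (by positivity)]
    have h12 : (ball S (k * L)).ncard ≤ (ball S r).ncard := by
      apply Set.ncard_le_ncard _ (ball_fin hSf _)
      exact ball_mono (by rw [hk]; exact Nat.div_mul_le_self r L)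
    exact_mod_cast (hpow k).trans h12

end Pool.Agent.Q142.FM
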