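import Mathlib

set_option autoImplicit false

/-! Groups with finitely many conjugacy classes: power maps on the set of classes. -/

namespace Pool.Agent.Q142.FM

variable {G : Type} [Group G]

/-- The `m`-th power of a conjugacy class. -/
def pw (m : ℕ) : ConjClasses G → ConjClasses G :=
  Quotient.map (fun g => g ^ m) (fun _ _ h => IsConj.pow m h)

theorem pw_mk (m : ℕ) (g : G) : pw m (ConjClasses.mk g) = ConjClasses.mk (g ^ m) := rfl

theorem pw_pw (m n : ℕ) (c : ConjClasses G) : pw m (pw n c) = pw (m * n) c := by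
  obtain ⟨g, rfl⟩ := ConjClasses.mk_surjective c
  rw [pw_mk, pw_mk, pw_mk, ← pow_mul, mul_comm]

theorem pw_comm (m n : ℕ) (c : ConjClasses G) : pw m (pw n c) = pw n (pw m c) := by
  rw [pw_pw, pw_pw, mul_comm]

theorem pw_one (c : ConjClasses G) : pw 1 c = c := by
  obtain ⟨g, rfl⟩ := ConjClasses.mk_surjective c
  rw [pw_mk, pow_one]

/-- Classes of the positive powers. -/
def Ob (c : ConjClasses G) : Set (ConjClasses G) := {d | ∃ m : ℕ, 0 < m ∧ pw m c = d}

theorem Ob_self (c : ConjClasses G) : c ∈ Ob c := ⟨1, one_pos, pw_one c⟩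

theorem Ob_pw {c d : ConjClasses G} (h : d ∈ Ob c) {m : ℕ} (hm : 0 < m) : pw m d ∈ Ob c := by
  obtain ⟨n, hn, rfl⟩ := h
  exact ⟨m * n, Nat.mul_pos hm hn, (pw_pw m n c).symm⟩

theorem Ob_sub {c d : ConjClasses G} (h : d ∈ Ob c) : Ob d ⊆ Ob c := by
  rintro x ⟨m, hm, rfl⟩
  exact Ob_pw h hm

/-- The good elements: all positive powers have conjugates of the element among their positive
powers. -/
def Good (c : ConjClasses G) : Prop := ∀ m : ℕ, 0 < m → ∃ n : ℕ, 0 < n ∧ pw n (pw m c) = c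

theorem exists_good [Finite (ConjClasses G)] {a : G} (ha : ∀ n : ℕ, 0 < n → a ^ n ≠ 1) :
    ∃ b : G, (∀ n : ℕ, 0 < n → b ^ n ≠ 1) ∧ Good (ConjClasses.mk b) := by
  classical
  have hex : ∃ k : ℕ, ∃ b : G, (∀ n : ℕ, 0 < n → b ^ n ≠ 1) ∧
      (Ob (ConjClasses.mk b)).ncard = k := ⟨_, a, ha, rfl⟩
  obtain ⟨b, hb, hk⟩ := Nat.find_spec hex
  refine ⟨b, hb, fun m hm => ?_⟩
  have h1 : pw m (ConjClasses.mk b) ∈ Ob (ConjClasses.mk b) := ⟨m, hm, rfl⟩
  have h2 : Ob (pw m (ConjClasses.mk b)) ⊆ Ob (ConjClasses.mk b) := Ob_sub h1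
  have h3 : ∀ n : ℕ, 0 < n → (b ^ m) ^ n ≠ 1 := by
    intro n hn
    rw [← pow_mul]
    exact hb _ (Nat.mul_pos hm hn)
  have h4 : Nat.find hex ≤ (Ob (ConjClasses.mk (b ^ m))).ncard :=
    Nat.find_min' hex ⟨b ^ m, h3, rfl⟩
  have h5 : Ob (pw m (ConjClasses.mk b)) = Ob (ConjClasses.mk b) := by
    apply Set.eq_of_subset_of_ncard_le h2
    rw [hk]
    exact h4
  have h6 : ConjClasses.mk b ∈ Ob (pw m (ConjClasses.mk b)) := by
    rw [h5]
    exact Ob_self _
  exact h6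

variable {c : ConjClasses G}

theorem Good.inj (hc : Good c) {m : ℕ} (hm : 0 < m) {d e : ConjClasses G} (hd : d ∈ Ob c)
    (he : e ∈ Ob c) (h : pw m d = pw m e) : d = e := by
  obtain ⟨n, -, hn⟩ := hc m hm
  have key : ∀ x ∈ Ob c, pw n (pw m x) = x := by
    rintro x ⟨i, -, rfl⟩
    rw [pw_comm m i, pw_comm n i, hn]
  rw [← key d hd, ← key e he, h]

/-- The power map as a permutation. -/
noncomputable def sg [Finite (ConjClasses G)] (hc : Good c) (m : ℕ) (hm : 0 < m) :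
    Equiv.Perm (Ob c) :=
  Equiv.ofBijective (fun d => ⟨pw m d.1, Ob_pw d.2 hm⟩) (Finite.injective_iff_bijective.1 (by
    intro d e h
    exact Subtype.ext (hc.inj hm d.2 e.2 (congrArg Subtype.val h))))

theorem sg_val [Finite (ConjClasses G)] (hc : Good c) (m : ℕ) (hm : 0 < m) (d : Ob c) :
    (sg hc m hm d).1 = pw m d.1 := rfl

theorem sg_pow_val [Finite (ConjClasses G)] (hc : Good c) (m : ℕ) (hm : 0 < m) (k : ℕ)
    (d : Ob c) : ((sg hc m hm ^ k) d).1 = pw (m ^ k) d.1 := by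
  induction k with
  | zero =>
    rw [pow_zero, pow_zero, pw_one]
    rfl
  | succ k ih =>
    rw [pow_succ', Equiv.Perm.mul_apply, sg_val, ih, pw_pw, pow_succ']

theorem sg_card [Finite (ConjClasses G)] (hc : Good c) (m : ℕ) (hm : 0 < m) :
    sg hc m hm ^ (Nat.card (Ob c)) = 1 := by
  classical
  let T : Set (Equiv.Perm (Ob c)) := {σ | ∃ (n : ℕ) (hn : 0 < n), sg hc n hn = σ}
  let H : Subgroup (Equiv.Perm (Ob c)) := Subgroup.centralizer T
  let pt : Ob c := ⟨c, Ob_self c⟩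
  have hmem : ∀ (n : ℕ) (hn : 0 < n), sg hc n hn ∈ H := by
    intro n hn
    rw [Subgroup.mem_centralizer_iff]
    rintro _ ⟨k, hk, rfl⟩
    apply Equiv.ext
    intro d
    apply Subtype.ext
    rw [Equiv.Perm.mul_apply, Equiv.Perm.mul_apply, sg_val, sg_val, sg_val, sg_val, pw_comm]
  have hbij : Function.Bijective (fun σ : H => σ.1 pt) := by
    constructor
    · intro σ τ h
      apply Subtype.ext
      apply Equiv.ext
      rintro ⟨_, n, hn, rfl⟩
      have e1 : (⟨pw n c, ⟨n, hn, rfl⟩⟩ : Ob c) = sg hc n hn pt := Subtype.ext rfl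
      have hσ := (Subgroup.mem_centralizer_iff.1 σ.2) (sg hc n hn) ⟨n, hn, rfl⟩
      have hτ := (Subgroup.mem_centralizer_iff.1 τ.2) (sg hc n hn) ⟨n, hn, rfl⟩
      rw [e1]
      have e2 := DFunLike.congr_fun hσ pt
      have e3 := DFunLike.congr_fun hτ pt
      rw [Equiv.Perm.mul_apply, Equiv.Perm.mul_apply] at e2 e3
      rw [← e2, ← e3]
      exact congrArg _ h
    · rintro ⟨_, n, hn, rfl⟩
      exact ⟨⟨sg hc n hn, hmem n hn⟩, Subtype.ext rfl⟩
  have hcard : Nat.card H = Nat.card (Ob c) := Nat.card_congr (Equiv.ofBijective _ hbij)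
  have h1 : (⟨sg hc m hm, hmem m hm⟩ : H) ^ Nat.card H = 1 := pow_card_eq_one'
  rw [← hcard]
  exact congrArg Subtype.val h1

theorem Good.pow [Finite (ConjClasses G)] (hc : Good c) (m : ℕ) (hm : 0 < m) :
    pw (m ^ Nat.card (Ob c)) c = c := by
  have h1 := sg_pow_val hc m hm (Nat.card (Ob c)) ⟨c, Ob_self c⟩
  rw [sg_card] at h1
  exact h1.symm

theorem Ob_card_pos [Finite (ConjClasses G)] (c : ConjClasses G) : 0 < Nat.card (Ob c) := by
  have : Nonempty (Ob c) := ⟨⟨c, Ob_self c⟩⟩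
  exact Nat.card_pos

theorem Ob_card_lt [Finite (ConjClasses G)] {b : G} (hb : ∀ n : ℕ, 0 < n → b ^ n ≠ 1) :
    Nat.card (Ob (ConjClasses.mk b)) < Nat.card (ConjClasses G) := by
  classical
  have h1 : (ConjClasses.mk (1 : G)) ∉ Ob (ConjClasses.mk b) := by
    rintro ⟨m, hm, h⟩
    rw [pw_mk, ConjClasses.mk_eq_mk_iff_isConj] at h
    exact hb m hm (isConj_one_left.1 h)
  have h2 : (Ob (ConjClasses.mk b)).ncard < (Set.univ : Set (ConjClasses G)).ncard := by
    apply Set.ncard_lt_ncard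
    · exact ⟨Set.subset_univ _, fun h => h1 (h (Set.mem_univ _))⟩
    · exact Set.toFinite _
  rw [Set.ncard_univ] at h2
  exact h2

/-- Roots. -/
theorem Good.root [Finite (ConjClasses G)] (hc : Good c) (m : ℕ) (hm : 0 < m) {x : G}
    (hx : ConjClasses.mk x ∈ Ob c) : ∃ y : G, ConjClasses.mk y ∈ Ob c ∧ y ^ m = x := by
  obtain ⟨⟨d, hd⟩, hdx⟩ := (sg hc m hm).surjective ⟨_, hx⟩
  obtain ⟨y, rfl⟩ := ConjClasses.mk_surjective d
  have h1 : ConjClasses.mk (y ^ m) = ConjClasses.mk x := congrArg Subtype.val hdx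
  rw [ConjClasses.mk_eq_mk_iff_isConj, isConj_iff] at h1
  obtain ⟨g, hg⟩ := h1
  refine ⟨g * y * g⁻¹, ?_, ?_⟩
  · have : ConjClasses.mk (g * y * g⁻¹) = ConjClasses.mk y := by
      rw [ConjClasses.mk_eq_mk_iff_isConj, isConj_comm, isConj_iff]
      exact ⟨g, rfl⟩
    rw [this]
    exact hd
  · rw [conj_pow, hg]

end Pool.Agent.Q142.FM
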