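import Pool.Agent.Helper227.SOne
import Pool.Agent.Helper294.HallC.FngOfFp

set_option autoImplicit false

/-! Semidecidability in finitely presented groups. -/

namespace Pool.Agent.Q142.FM

open Pool.Agent.Helper227
open FreeGroup (reduce invRev reduce.cons)

section Red

variable {α : Type} [Primcodable α] [DecidableEq α]

omit [Primcodable α] in
theorem reduce_foldr (w : List (α × Bool)) : reduce w = w.foldr (fun x r =>
    List.casesOn (motive := fun _ => List (α × Bool)) r [x] fun hd tl =>
      if x.1 = hd.1 ∧ x.2 = !hd.2 then tl else x :: hd :: tl) [] := by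
  induction w with
  | nil => rfl
  | cons x w ih => rw [reduce.cons, List.foldr_cons, ← ih]

theorem reduce_pr : Primrec (reduce : List (α × Bool) → List (α × Bool)) := by
  have h : Primrec fun w : List (α × Bool) => w.foldr (fun x r =>
    List.casesOn (motive := fun _ => List (α × Bool)) r [x] fun hd tl =>
      if x.1 = hd.1 ∧ x.2 = !hd.2 then tl else x :: hd :: tl) [] := by
    apply Primrec.list_foldr (h := fun (_ : List (α × Bool)) (y : (α × Bool) × List (α × Bool)) =>
      List.casesOn (motive := fun _ => List (α × Bool)) y.2 [y.1] fun hd tl =>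
      if y.1.1 = hd.1 ∧ y.1.2 = !hd.2 then tl else y.1 :: hd :: tl) Primrec.id (Primrec.const [])
    show Primrec fun z : List (α × Bool) × ((α × Bool) × List (α × Bool)) =>
      List.casesOn (motive := fun _ => List (α × Bool)) z.2.2 [z.2.1]
      fun hd tl => if z.2.1.1 = hd.1 ∧ z.2.1.2 = !hd.2 then tl else z.2.1 :: hd :: tl
    have hx : Primrec fun z : List (α × Bool) × ((α × Bool) × List (α × Bool)) => z.2.1 :=
      Primrec.fst.comp Primrec.snd
    have hr : Primrec fun z : List (α × Bool) × ((α × Bool) × List (α × Bool)) => z.2.2 :=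
      Primrec.snd.comp Primrec.snd
    apply Primrec.list_casesOn (h := fun (z : List (α × Bool) × ((α × Bool) × List (α × Bool)))
      (y : (α × Bool) × List (α × Bool)) =>
      if z.2.1.1 = y.1.1 ∧ z.2.1.2 = !y.1.2 then y.2 else z.2.1 :: y.1 :: y.2) hr
      (Primrec.list_cons.comp hx (Primrec.const []))
    show Primrec fun u : (List (α × Bool) × ((α × Bool) × List (α × Bool))) ×
        ((α × Bool) × List (α × Bool)) =>
      if u.1.2.1.1 = u.2.1.1 ∧ u.1.2.1.2 = !u.2.1.2 then u.2.2 else u.1.2.1 :: u.2.1 :: u.2.2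
    have hx' : Primrec fun u : (List (α × Bool) × ((α × Bool) × List (α × Bool))) ×
        ((α × Bool) × List (α × Bool)) => u.1.2.1 := hx.comp Primrec.fst
    have hy : Primrec fun u : (List (α × Bool) × ((α × Bool) × List (α × Bool))) ×
        ((α × Bool) × List (α × Bool)) => u.2.1 := Primrec.fst.comp Primrec.snd
    have ht : Primrec fun u : (List (α × Bool) × ((α × Bool) × List (α × Bool))) ×
        ((α × Bool) × List (α × Bool)) => u.2.2 := Primrec.snd.comp Primrec.snd
    apply Primrec.ite
    · exact (Primrec.eq.comp (Primrec.fst.comp hx') (Primrec.fst.comp hy)).and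
        (Primrec.eq.comp (Primrec.snd.comp hx') (Primrec.not.comp (Primrec.snd.comp hy)))
    · exact ht
    · exact Primrec.list_cons.comp hx' (Primrec.list_cons.comp hy ht)
  exact h.of_eq fun w => (reduce_foldr w).symm

omit [DecidableEq α] in
theorem invRev_pr : Primrec (invRev : List (α × Bool) → List (α × Bool)) := by
  unfold invRev
  apply Primrec.list_reverse.comp
  apply Primrec.list_map Primrec.id
  exact Primrec.pair (Primrec.fst.comp Primrec.snd)
    (Primrec.not.comp (Primrec.snd.comp Primrec.snd))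

end Red

/-- Words. -/
abbrev Wd (n : ℕ) : Type := List (Fin n × Bool)

/-- One step of a derivation: a conjugator, a word, a sign. -/
def stW {n : ℕ} (t : Wd n × (Wd n × Bool)) : Wd n :=
  t.1 ++ ((if t.2.2 = true then t.2.1 else invRev t.2.1) ++ invRev t.1)

/-- The word of a derivation. -/
def flatW {n : ℕ} (d : List (Wd n × (Wd n × Bool))) : Wd n := d.flatMap stW

theorem stW_pr {n : ℕ} : Primrec (stW : Wd n × (Wd n × Bool) → Wd n) := by
  unfold stW
  refine Primrec.list_append.comp Primrec.fst (Primrec.list_append.comp ?_ (invRev_pr.comp Primrec.fst))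
  exact Primrec.ite (Primrec.eq.comp (Primrec.snd.comp Primrec.snd) (Primrec.const true))
    (Primrec.fst.comp Primrec.snd) (invRev_pr.comp (Primrec.fst.comp Primrec.snd))

theorem flatW_pr {n : ℕ} : Primrec (flatW : List (Wd n × (Wd n × Bool)) → Wd n) := by
  unfold flatW
  exact Primrec.list_flatMap Primrec.id (stW_pr.comp Primrec.snd)

theorem mk_app {n : ℕ} (u v : Wd n) : FreeGroup.mk (u ++ v) = FreeGroup.mk u * FreeGroup.mk v := by
  rw [FreeGroup.mul_mk]

theorem mk_inv {n : ℕ} (u : Wd n) : FreeGroup.mk (invRev u) = (FreeGroup.mk u)⁻¹ := by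
  rw [FreeGroup.inv_mk]

variable {G : Type} [Group G] {n : ℕ}

/-- Value of one step. -/
theorem ev_st (f : FreeGroup (Fin n) →* G) (t : Wd n × (Wd n × Bool)) :
    f (FreeGroup.mk (stW t)) = f (FreeGroup.mk t.1) *
      (if t.2.2 = true then f (FreeGroup.mk t.2.1) else (f (FreeGroup.mk t.2.1))⁻¹) *
      (f (FreeGroup.mk t.1))⁻¹ := by
  unfold stW
  by_cases h : t.2.2 = true
  · rw [if_pos h, if_pos h, mk_app, mk_app, mk_inv, map_mul, map_mul, map_inv, mul_assoc]
  · rw [if_neg h, if_neg h, mk_app, mk_app, mk_inv, mk_inv, map_mul, map_mul, map_inv, map_inv,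
      mul_assoc]

theorem flat_cons (t : Wd n × (Wd n × Bool)) (d : List (Wd n × (Wd n × Bool))) :
    flatW (t :: d) = stW t ++ flatW d := by
  unfold flatW
  rw [List.flatMap_cons]

/-- Membership in the normal closure of the values of a list of words. -/
theorem mem_ncl_iff (f : FreeGroup (Fin n) →* G) (hf : Function.Surjective f) (S : Set (Wd n))
    (x : G) : x ∈ Subgroup.normalClosure {y | ∃ w ∈ S, y = f (FreeGroup.mk w)} ↔
      ∃ d : List (Wd n × (Wd n × Bool)), (∀ t ∈ d, t.2.1 ∈ S) ∧ x = f (FreeGroup.mk (flatW d)) := by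
  constructor
  · intro hx
    unfold Subgroup.normalClosure at hx
    have hw : ∀ g : G, ∃ u : Wd n, f (FreeGroup.mk u) = g := by
      intro g
      obtain ⟨z, hz⟩ := hf g
      refine ⟨z.toWord, ?_⟩
      rw [FreeGroup.mk_toWord, hz]
    have hst : ∀ y ∈ Group.conjugatesOfSet {y | ∃ w ∈ S, y = f (FreeGroup.mk w)}, ∀ b : Bool,
        ∃ t : Wd n × (Wd n × Bool), t.2.1 ∈ S ∧
          f (FreeGroup.mk (stW t)) = if b = true then y else y⁻¹ := by
      intro y hy b
      rw [Group.mem_conjugatesOfSet_iff] at hy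
      obtain ⟨z, ⟨w, hw1, rfl⟩, hc⟩ := hy
      obtain ⟨g, hg⟩ := isConj_iff.1 hc
      obtain ⟨u, hu⟩ := hw g
      refine ⟨(u, (w, b)), hw1, ?_⟩
      rw [ev_st]
      by_cases hb : b = true
      · rw [if_pos hb, if_pos hb, hu, hg]
      · rw [if_neg hb, if_neg hb, hu, ← hg, mul_inv_rev, mul_inv_rev, inv_inv, mul_assoc]
    induction hx using Subgroup.closure_induction'' with
    | mem y hy =>
      obtain ⟨t, ht, hty⟩ := hst y hy true
      refine ⟨[t], by simpa using ht, ?_⟩
      rw [flat_cons, show flatW ([] : List (Wd n × (Wd n × Bool))) = [] from rfl,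
        List.append_nil, hty, if_pos rfl]
    | inv_mem y hy =>
      obtain ⟨t, ht, hty⟩ := hst y hy false
      refine ⟨[t], by simpa using ht, ?_⟩
      rw [flat_cons, show flatW ([] : List (Wd n × (Wd n × Bool))) = [] from rfl,
        List.append_nil, hty, if_neg (by simp)]
    | one =>
      refine ⟨[], by simp, ?_⟩
      rw [show flatW ([] : List (Wd n × (Wd n × Bool))) = [] from rfl, ← FreeGroup.one_eq_mk,
        map_one]
    | mul y z _ _ hy hz =>
      obtain ⟨d, h1, rfl⟩ := hy
      obtain ⟨e, h2, rfl⟩ := hz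
      refine ⟨d ++ e, ?_, ?_⟩
      · intro t ht
        rcases List.mem_append.1 ht with h | h
        · exact h1 t h
        · exact h2 t h
      · unfold flatW
        rw [List.flatMap_append, mk_app, map_mul]
  · rintro ⟨d, hd, rfl⟩
    induction d with
    | nil =>
      rw [show flatW ([] : List (Wd n × (Wd n × Bool))) = [] from rfl, ← FreeGroup.one_eq_mk,
        map_one]
      exact one_mem _
    | cons t d ih =>
      rw [flat_cons, mk_app, map_mul]
      apply mul_mem _ (ih (fun s hs => hd s (List.mem_cons_of_mem _ hs)))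
      rw [ev_st]
      have h1 : f (FreeGroup.mk t.2.1) ∈
          Subgroup.normalClosure {y | ∃ w ∈ S, y = f (FreeGroup.mk w)} :=
        Subgroup.subset_normalClosure ⟨t.2.1, hd t List.mem_cons_self, rfl⟩
      apply Subgroup.normalClosure_normal.conj_mem
      by_cases hb : t.2.2 = true
      · rw [if_pos hb]
        exact h1
      · rw [if_neg hb]
        exact inv_mem h1

/-- The word problem of a finitely presented group is semidecidable. -/
theorem s1_one (hG : Group.IsFinitelyPresented G) (f : FreeGroup (Fin n) →* G)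
    (hf : Function.Surjective f) : S1 (fun w : Wd n => f (FreeGroup.mk w) = 1) := by
  obtain ⟨R, hR, hk⟩ := Pool.Agent.Helper294.HallC.fng_of_fp (G := FreeGroup (Fin n))
    inferInstance hG f hf
  have hRl : ∃ L : List (Wd n), ∀ w, w ∈ L ↔ ∃ r ∈ R, r.toWord = w := by
    have h1 : (FreeGroup.toWord '' R).Finite := hR.image _
    refine ⟨h1.toFinset.toList, fun w => ?_⟩
    simp
  obtain ⟨L, hL⟩ := hRl
  have hset : {y : FreeGroup (Fin n) | ∃ w ∈ {w | w ∈ L},
      y = MonoidHom.id (FreeGroup (Fin n)) (FreeGroup.mk w)} = R := by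
    ext y
    constructor
    · rintro ⟨w, hw, rfl⟩
      obtain ⟨r, hr, rfl⟩ := (hL w).1 hw
      rw [FreeGroup.mk_toWord]
      exact hr
    · intro hy
      exact ⟨y.toWord, (hL _).2 ⟨y, hy, rfl⟩, by rw [FreeGroup.mk_toWord]; rfl⟩
  have hiff : ∀ w : Wd n, f (FreeGroup.mk w) = 1 ↔ ∃ d : List (Wd n × (Wd n × Bool)),
      (∀ t ∈ d, t.2.1 ∈ L) ∧ reduce w = reduce (flatW d) := by
    intro w
    rw [← MonoidHom.mem_ker, ← hk, ← hset, mem_ncl_iff (MonoidHom.id _) Function.surjective_id]
    constructor
    · rintro ⟨d, h1, h2⟩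
      refine ⟨d, h1, ?_⟩
      exact congrArg FreeGroup.toWord h2
    · rintro ⟨d, h1, h2⟩
      refine ⟨d, h1, ?_⟩
      exact FreeGroup.toWord_injective h2
  refine S1.of_eq ?_ (fun w => (hiff w).symm)
  refine S1.ex (p := fun (w : Wd n) (d : List (Wd n × (Wd n × Bool))) =>
    (∀ t ∈ d, t.2.1 ∈ L) ∧ reduce w = reduce (flatW d)) ?_
  refine S1.and ?_ (S1.of_prim (Primrec.eq.comp (reduce_pr.comp Primrec.fst)
    (reduce_pr.comp (flatW_pr.comp Primrec.snd))))
  refine S1.all_mem (p := fun (_ : Wd n × List (Wd n × (Wd n × Bool)))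
    (t : Wd n × (Wd n × Bool)) => t.2.1 ∈ L) ?_ Primrec.snd
  refine S1.of_prim ?_
  have h5 : PrimrecPred (fun x : (Wd n × List (Wd n × (Wd n × Bool))) × (Wd n × (Wd n × Bool)) =>
      ∃ l ∈ L, x.2.2.1 = l) := by
    refine PP.ex_mem (f := fun _ => L) (p := fun (x : (Wd n × List (Wd n × (Wd n × Bool))) ×
      (Wd n × (Wd n × Bool))) (l : Wd n) => x.2.2.1 = l) ?_ (Primrec.const L)
    exact Primrec.eq.comp (Primrec.fst.comp (Primrec.snd.comp (Primrec.snd.comp Primrec.fst)))
      Primrec.snd
  exact h5.of_eq (by simp)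

section Closure

variable {α : Type} [Primcodable α] (hG : Group.IsFinitelyPresented G)
  (f : FreeGroup (Fin n) →* G) (hf : Function.Surjective f)

include hG hf

/-- Equality is semidecidable. -/
theorem s1_eq {u v : α → Wd n} (hu : Primrec u) (hv : Primrec v) :
    S1 (fun a => f (FreeGroup.mk (u a)) = f (FreeGroup.mk (v a))) := by
  have h1 : S1 (fun a => f (FreeGroup.mk (u a ++ invRev (v a))) = 1) :=
    S1.comp (f := fun a => u a ++ invRev (v a)) (s1_one hG f hf)
      (Primrec.list_append.comp hu (invRev_pr.comp hv))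
  refine h1.of_eq (fun a => ?_)
  rw [mk_app, mk_inv, map_mul, map_inv, mul_inv_eq_one]

/-- Conjugacy is semidecidable. -/
theorem s1_conj {u v : α → Wd n} (hu : Primrec u) (hv : Primrec v) :
    S1 (fun a => IsConj (f (FreeGroup.mk (u a))) (f (FreeGroup.mk (v a)))) := by
  have h1 : S1 (fun a => ∃ w : Wd n, f (FreeGroup.mk (w ++ (u a ++ invRev w))) =
      f (FreeGroup.mk (v a))) := by
    refine S1.ex (p := fun (a : α) (w : Wd n) => f (FreeGroup.mk (w ++ (u a ++ invRev w))) =
      f (FreeGroup.mk (v a))) ?_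
    exact s1_eq hG f hf (Primrec.list_append.comp Primrec.snd
      (Primrec.list_append.comp (hu.comp Primrec.fst) (invRev_pr.comp Primrec.snd)))
      (hv.comp Primrec.fst)
  refine h1.of_eq (fun a => ?_)
  rw [isConj_iff]
  constructor
  · rintro ⟨w, hw⟩
    refine ⟨f (FreeGroup.mk w), ?_⟩
    rw [← hw, mk_app, mk_app, mk_inv, map_mul, map_mul, map_inv, mul_assoc]
  · rintro ⟨c, hc⟩
    obtain ⟨z, rfl⟩ := hf c
    refine ⟨z.toWord, ?_⟩
    rw [mk_app, mk_app, mk_inv, map_mul, map_mul, map_inv, FreeGroup.mk_toWord, ← mul_assoc, hc]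

end Closure

/-- Finite disjunctions. -/
theorem s1_fin {α ι : Type} [Primcodable α] [Finite ι] {p : ι → α → Prop}
    (hp : ∀ i, S1 (p i)) : S1 (fun a => ∃ i, p i a) := by
  classical
  have := Fintype.ofFinite ι
  have key : ∀ s : Finset ι, S1 (fun a => ∃ i ∈ s, p i a) := by
    intro s
    induction s using Finset.induction_on with
    | empty =>
      refine (S1.of_prim (PP.const False)).of_eq (fun a => ?_)
      simp
    | insert i s _ ih =>
      refine ((hp i).or ih).of_eq (fun a => ?_)
      simp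
  refine (key Finset.univ).of_eq (fun a => ?_)
  simp

/-- Finite conjunctions. -/
theorem s1_fin_all {α ι : Type} [Primcodable α] [Finite ι] {p : ι → α → Prop}
    (hp : ∀ i, S1 (p i)) : S1 (fun a => ∀ i, p i a) := by
  classical
  have := Fintype.ofFinite ι
  have key : ∀ s : Finset ι, S1 (fun a => ∀ i ∈ s, p i a) := by
    intro s
    induction s using Finset.induction_on with
    | empty =>
      refine (S1.of_prim (PP.const True)).of_eq (fun a => ?_)
      simp
    | insert i s _ ih =>
      refine ((hp i).and ih).of_eq (fun a => ?_)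
      simp
  refine (key Finset.univ).of_eq (fun a => ?_)
  simp

theorem computable_of {α : Type} [Primcodable α] {p : α → Prop} (h1 : S1 p)
    (h2 : S1 (fun a => ¬ p a)) : ComputablePred p :=
  ComputablePred.computable_iff_re_compl_re'.2 ⟨h1.re, h2.re⟩

end Pool.Agent.Q142.FM
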