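import Mathlib

set_option autoImplicit false

/-! Subgroups of finite index of finitely presented groups are finitely presented. -/

namespace Pool.Agent.Q142.FM

open Function

/-- A finitely generated free group is finitely presented. -/
theorem fp_of_free (P : Type) [Group P] [IsFreeGroup P] (hP : Group.FG P) :
    Group.IsFinitelyPresented P := by
  obtain ⟨n, π, hπ⟩ : ∃ (n : ℕ) (π : FreeGroup (Fin n) →* P), Surjective π := by
    obtain ⟨S, hS, hf⟩ := Group.fg_iff.1 hP
    have : Finite S := hf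
    obtain ⟨n, ⟨e⟩⟩ := Finite.exists_equiv_fin S
    refine ⟨n, FreeGroup.lift (fun i => (e.symm i : P)), ?_⟩
    rw [← MonoidHom.range_eq_top, eq_top_iff, ← hS, Subgroup.closure_le]
    intro s hs
    exact ⟨FreeGroup.of (e ⟨s, hs⟩), by simp⟩
  obtain ⟨s, hs⟩ : ∃ s : P →* FreeGroup (Fin n), ∀ x, π (s x) = x := by
    choose r hr using hπ
    refine ⟨IsFreeGroup.lift (fun a => r (IsFreeGroup.of a)), ?_⟩
    have h1 : π.comp (IsFreeGroup.lift (fun a => r (IsFreeGroup.of a))) = MonoidHom.id P := by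
      apply IsFreeGroup.ext_hom
      intro a
      rw [MonoidHom.comp_apply, IsFreeGroup.lift_of, hr]
      rfl
    exact fun x => DFunLike.congr_fun h1 x
  refine ⟨n, π, hπ, Set.range (fun i : Fin n => (FreeGroup.of i)⁻¹ * s (π (FreeGroup.of i))),
    Set.finite_range _, ?_⟩
  apply le_antisymm
  · apply Subgroup.normalClosure_le_normal
    rintro _ ⟨i, rfl⟩
    rw [SetLike.mem_coe, MonoidHom.mem_ker, map_mul, map_inv, hs, inv_mul_cancel]
  · set N := Subgroup.normalClosure
      (Set.range (fun i : Fin n => (FreeGroup.of i)⁻¹ * s (π (FreeGroup.of i)))) with hN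
    have hNn : N.Normal := Subgroup.normalClosure_normal
    have h1 : QuotientGroup.mk' N = ((QuotientGroup.mk' N).comp s).comp π := by
      apply FreeGroup.ext_hom
      intro i
      show (QuotientGroup.mk' N) (FreeGroup.of i) =
        (QuotientGroup.mk' N) (s (π (FreeGroup.of i)))
      apply QuotientGroup.eq.2
      exact Subgroup.subset_normalClosure ⟨i, rfl⟩
    intro u hu
    have h2 := DFunLike.congr_fun h1 u
    rw [MonoidHom.comp_apply, (MonoidHom.mem_ker.1 hu), map_one] at h2
    exact (QuotientGroup.eq_one_iff u).1 h2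

/-- Reidemeister and Schreier: subgroups of finite index of finitely presented groups are
finitely presented. -/
theorem fp_finiteIndex {G : Type} [Group G] (hG : Group.IsFinitelyPresented G) (H : Subgroup G)
    (hH : H.FiniteIndex) : Group.IsFinitelyPresented H := by
  obtain ⟨n, φ, hφ, R, hR, hk⟩ := hG.out
  set P : Subgroup (FreeGroup (Fin n)) := H.comap φ with hP
  have hPi : P.FiniteIndex := ⟨by
    rw [hP, Subgroup.index_comap_of_surjective H hφ]
    exact hH.index_ne_zero⟩
  have hPfg : Group.FG P := Subgroup.fg_of_index_ne_zero P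
  have hPfp : Group.IsFinitelyPresented P := fp_of_free P hPfg
  have hker : φ.ker ≤ P := by
    intro x hx
    show φ x ∈ H
    rw [MonoidHom.mem_ker.1 hx]
    exact one_mem H
  let ψ : P →* H := (φ.comp P.subtype).codRestrict H (fun x => x.2)
  have hψ : Surjective ψ := by
    rintro ⟨h, hh⟩
    obtain ⟨x, hx⟩ := hφ h
    have hxP : x ∈ P := by
      show φ x ∈ H
      rw [hx]
      exact hh
    exact ⟨⟨x, hxP⟩, Subtype.ext hx⟩
  have hRk : ∀ r ∈ R, ∀ t : FreeGroup (Fin n), t * r * t⁻¹ ∈ P := by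
    intro r hr t
    apply hker
    have hrk : r ∈ φ.ker := by
      rw [← hk]
      exact Subgroup.subset_normalClosure hr
    exact (MonoidHom.normal_ker φ).conj_mem r hrk t
  -- the relators
  let Q := FreeGroup (Fin n) ⧸ P
  have hQ : Finite Q := Subgroup.finite_quotient_of_finiteIndex
  have hRf : Finite R := hR
  let S : Set P := Set.range (fun x : R × Q =>
    (⟨x.2.out⁻¹ * x.1.1 * (x.2.out⁻¹)⁻¹, hRk x.1.1 x.1.2 _⟩ : P))
  have hS : S.Finite := Set.finite_range _
  refine Group.IsFinitelyPresented.of_surjective ψ hψ ⟨S, hS, ?_⟩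
  apply le_antisymm
  · apply Subgroup.normalClosure_le_normal
    rintro _ ⟨⟨r, q⟩, rfl⟩
    rw [SetLike.mem_coe, MonoidHom.mem_ker]
    apply Subtype.ext
    show φ (q.out⁻¹ * r.1 * (q.out⁻¹)⁻¹) = 1
    have hrk : r.1 ∈ φ.ker := by
      rw [← hk]
      exact Subgroup.subset_normalClosure r.2
    exact (MonoidHom.normal_ker φ).conj_mem r.1 hrk _
  · have h1 : φ.ker ≤ (Subgroup.normalClosure S).map P.subtype := by
      rw [← hk]
      unfold Subgroup.normalClosure
      rw [Subgroup.closure_le]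
      intro x hx
      rw [Group.mem_conjugatesOfSet_iff] at hx
      obtain ⟨r, hr, hc⟩ := hx
      obtain ⟨g, rfl⟩ := isConj_iff.1 hc
      -- `g = p * out⁻¹`
      let q : Q := QuotientGroup.mk g⁻¹
      have hq : (q.out)⁻¹ * g⁻¹ ∈ P := by
        rw [← QuotientGroup.eq]
        exact QuotientGroup.out_eq' q
      let s : P := ⟨q.out⁻¹ * r * (q.out⁻¹)⁻¹, hRk r hr _⟩
      have hs : s ∈ Subgroup.normalClosure S :=
        Subgroup.subset_normalClosure ⟨(⟨r, hr⟩, q), rfl⟩
      let p : P := ⟨(q.out)⁻¹ * g⁻¹, hq⟩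
      refine ⟨p⁻¹ * s * (p⁻¹)⁻¹, Subgroup.normalClosure_normal.conj_mem s hs p⁻¹, ?_⟩
      show ((q.out)⁻¹ * g⁻¹)⁻¹ * (q.out⁻¹ * r * (q.out⁻¹)⁻¹) * (((q.out)⁻¹ * g⁻¹)⁻¹)⁻¹ =
        g * r * g⁻¹
      group
    intro x hx
    have hx1 : (x : FreeGroup (Fin n)) ∈ φ.ker := by
      rw [MonoidHom.mem_ker] at hx ⊢
      exact congrArg Subtype.val hx
    obtain ⟨y, hy, hyx⟩ := h1 hx1
    have : y = x := Subtype.ext hyx
    rw [← this]
    exact hy

end Pool.Agent.Q142.FM
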