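import Pool.Agent.Q142.FM.Pw

set_option autoImplicit false

/-! An element whose class has all roots lies in a copy of the rational numbers. -/

namespace Pool.Agent.Q142.FM

open scoped Nat

variable {G : Type} [Group G]

/-- The data: a compatible system of roots. -/
theorem exists_seq (P : G → Prop) (h : ∀ m : ℕ, 0 < m → ∀ x, P x → ∃ y, P y ∧ y ^ m = x)
    (b : G) (hb : P b) : ∃ y : ℕ → G, y 0 = b ∧ ∀ n, y (n + 1) ^ (n + 1) = y n := by
  choose! r hr1 hr2 using h
  let z : ℕ → {x : G // P x} := fun n =>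
    Nat.rec (⟨b, hb⟩ : {x : G // P x})
      (fun n x => ⟨r (n + 1) x.1, hr1 (n + 1) (Nat.succ_pos n) x.1 x.2⟩) n
  refine ⟨fun n => (z n).1, rfl, fun n => ?_⟩
  exact hr2 (n + 1) (Nat.succ_pos n) (z n).1 (z n).2

theorem seq_pow {y : ℕ → G} (hy : ∀ n, y (n + 1) ^ (n + 1) = y n) (n k : ℕ) :
    y (n + k) ^ ((n + 1).ascFactorial k) = y n := by
  induction k with
  | zero => simp
  | succ k ih =>
    rw [Nat.ascFactorial_succ, pow_mul]
    have : n + 1 + k = n + k + 1 := by ring
    rw [this, show n + (k + 1) = n + k + 1 by ring, hy (n + k), ih]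

/-- The value at a rational number. -/
noncomputable def val (y : ℕ → G) (q : ℚ) : G :=
  y q.den ^ (q.num * (((q.den - 1)! : ℕ) : ℤ))

theorem val_eq {y : ℕ → G} (hy : ∀ n, y (n + 1) ^ (n + 1) = y n) (q : ℚ) {n : ℕ}
    (hn : q.den ≤ n) : ∃ a : ℤ, q * (n ! : ℚ) = a ∧ val y q = y n ^ a := by
  obtain ⟨k, rfl⟩ := Nat.exists_eq_add_of_le hn
  have hd : 0 < q.den := q.den_pos
  have h1 : (q.den + k)! = q.den * (q.den - 1)! * (q.den + 1).ascFactorial k := by
    rw [Nat.mul_factorial_pred hd.ne', Nat.factorial_mul_ascFactorial]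
  refine ⟨q.num * (((q.den - 1)! : ℕ) : ℤ) * (((q.den + 1).ascFactorial k : ℕ) : ℤ), ?_, ?_⟩
  · rw [h1]
    push_cast
    have h2 : (q : ℚ) * (q.den : ℚ) = q.num := Rat.mul_den_eq_num q
    calc q * ((q.den : ℚ) * ((q.den - 1)! : ℚ) * ((q.den + 1).ascFactorial k : ℚ))
        = (q * (q.den : ℚ)) * ((q.den - 1)! : ℚ) * ((q.den + 1).ascFactorial k : ℚ) := by ring
      _ = _ := by rw [h2]
  · unfold val
    have h3 := seq_pow hy q.den k
    conv_lhs => rw [← h3]
    rw [← zpow_natCast, ← zpow_mul]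
    congr 1
    ring

theorem exists_ratHom {y : ℕ → G} (hy : ∀ n, y (n + 1) ^ (n + 1) = y n)
    (hb : ∀ n : ℕ, 0 < n → y 0 ^ n ≠ 1) :
    ∃ F : Multiplicative ℚ →* G, Function.Injective F ∧ F (Multiplicative.ofAdd 1) = y 0 := by
  have hinf : ∀ n (a : ℤ), y n ^ a = 1 → a = 0 := by
    intro n a ha
    by_contra hne
    have h1 := seq_pow hy 0 n
    rw [zero_add] at h1
    have h2 : (y n) ^ a.natAbs = 1 := by
      rcases Int.natAbs_eq a with h | h
      · rw [h, zpow_natCast] at ha
        exact ha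
      · rw [h, zpow_neg, zpow_natCast, inv_eq_one] at ha
        exact ha
    refine hb a.natAbs (Int.natAbs_pos.2 hne) ?_
    rw [← h1, ← pow_mul, mul_comm, pow_mul, h2, one_pow]
  refine ⟨{ toFun := fun q => val y q.toAdd, map_one' := ?_, map_mul' := ?_ }, ?_, ?_⟩
  · show val y 0 = 1
    unfold val
    simp
  · intro p q
    show val y (p.toAdd + q.toAdd) = val y p.toAdd * val y q.toAdd
    set p' := p.toAdd
    set q' := q.toAdd
    obtain ⟨a, ha, ha'⟩ := val_eq hy p' (n := p'.den + q'.den + (p' + q').den) (by omega)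
    obtain ⟨c, hc, hc'⟩ := val_eq hy q' (n := p'.den + q'.den + (p' + q').den) (by omega)
    obtain ⟨e, he, he'⟩ := val_eq hy (p' + q') (n := p'.den + q'.den + (p' + q').den) (by omega)
    rw [ha', hc', he', ← zpow_add]
    congr 1
    have : (e : ℚ) = ((a + c : ℤ) : ℚ) := by
      push_cast
      rw [← he, ← ha, ← hc]
      ring
    exact_mod_cast this
  · rw [injective_iff_map_eq_one]
    intro q hq
    have hq' : val y q.toAdd = 1 := hq
    obtain ⟨a, ha, ha'⟩ := val_eq hy q.toAdd le_rfl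
    rw [ha'] at hq'
    have h0 := hinf _ _ hq'
    rw [h0, Int.cast_zero, mul_eq_zero] at ha
    rcases ha with h | h
    · exact Multiplicative.toAdd.injective h
    · exact absurd h (by positivity)
  · show val y 1 = y 0
    unfold val
    have h1 := hy 0
    simp at h1
    simp [h1]

end Pool.Agent.Q142.FM
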