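import Mathlib

set_option autoImplicit false

/-! Infinite non-cyclic groups all of whose proper subgroups are cyclic. -/

namespace Pool.Agent.Q142.FM

open Subgroup

variable {G : Type} [Group G]

theorem infinite_of_fi [Infinite G] (H : Subgroup G) (hH : H.FiniteIndex) : Infinite H := by
  by_contra hcon
  have h1 : Finite H := not_infinite_iff_finite.1 hcon
  have h2 : Finite (G ⧸ H) := Subgroup.finite_quotient_of_finiteIndex
  have hG : Finite G := Finite.of_equiv _ (Subgroup.groupEquivQuotientProdSubgroup (s := H)).symm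
  exact not_finite G

theorem no_fi [Infinite G] (hnc : ¬ IsCyclic G) (h3 : ∀ H : Subgroup G, H ≠ ⊤ → IsCyclic H)
    (H : Subgroup G) (hH : H.FiniteIndex) : H = ⊤ := by
  by_contra hne
  set C := H.normalCore with hC
  have hCn : C.Normal := Subgroup.normalCore_normal H
  have hCf : C.FiniteIndex := inferInstance
  have hCH : C ≤ H := Subgroup.normalCore_le H
  have hCne : C ≠ ⊤ := fun h => hne (top_le_iff.1 (h ▸ hCH))
  have hCinf : Infinite C := infinite_of_fi C hCf
  obtain ⟨⟨c, hcC⟩, hgen⟩ := (h3 C hCne).exists_generator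
  have hmem : ∀ x ∈ C, ∃ k : ℤ, c ^ k = x := by
    intro x hx
    obtain ⟨k, hk⟩ := hgen ⟨x, hx⟩
    exact ⟨k, congrArg Subtype.val hk⟩
  have hcinf : ∀ k : ℤ, c ^ k = 1 → k = 0 := by
    intro k hk
    by_contra hk0
    have hfo : IsOfFinOrder (⟨c, hcC⟩ : C) := by
      rw [isOfFinOrder_iff_zpow_eq_one]
      exact ⟨k, hk0, Subtype.ext hk⟩
    have hfin : Finite (Subgroup.zpowers (⟨c, hcC⟩ : C)) := finite_zpowers.2 hfo
    have htop : Subgroup.zpowers (⟨c, hcC⟩ : C) = ⊤ := by
      rw [eq_top_iff]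
      intro x _
      exact hgen x
    have : Finite C := by
      rw [htop] at hfin
      exact Finite.of_equiv _ Subgroup.topEquiv.toEquiv
    exact not_finite C
  have hconj : ∀ g : G, ∃ e : ℤ, c ^ e = g * c * g⁻¹ := fun g => hmem _ (hCn.conj_mem c hcC g)
  have hzinj : ∀ i j : ℤ, c ^ i = c ^ j → i = j := by
    intro i j h
    have : c ^ (i - j) = 1 := by rw [zpow_sub, h, mul_inv_cancel]
    have := hcinf _ this
    omega
  -- torsion free
  have htf : ∀ (t : G) (m : ℕ), 0 < m → t ^ m = 1 → t = 1 := by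
    intro t m hm ht
    by_contra ht1
    set k : ℕ := m + 1 with hk
    set N := Subgroup.zpowers (c ^ k) with hN
    have hNn : N.Normal := by
      constructor
      intro x hx g
      obtain ⟨i, rfl⟩ := hx
      obtain ⟨e, he⟩ := hconj g
      refine ⟨e * i, ?_⟩
      show (c ^ k) ^ (e * i) = g * (c ^ k) ^ i * g⁻¹
      rw [← conj_zpow, ← conj_pow, ← he, ← zpow_natCast, ← zpow_natCast, ← zpow_mul, ← zpow_mul,
        ← zpow_mul]
      congr 1
      ring
    have hL : Subgroup.zpowers t ⊔ N = ⊤ := by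
      by_contra hL
      obtain ⟨⟨y, hy⟩, hygen⟩ := (h3 _ hL).exists_generator
      obtain ⟨a, ha⟩ := hygen ⟨t, Subgroup.mem_sup_left (Subgroup.mem_zpowers t)⟩
      obtain ⟨b, hb⟩ := hygen ⟨c ^ k, Subgroup.mem_sup_right (Subgroup.mem_zpowers _)⟩
      have ha' : y ^ a = t := congrArg Subtype.val ha
      have hb' : y ^ b = c ^ k := congrArg Subtype.val hb
      have hyinf : ∀ i : ℤ, y ^ i = 1 → i = 0 := by
        intro i hi
        have h1 : (c ^ k) ^ i = 1 := by
          rw [← hb', ← zpow_mul, mul_comm, zpow_mul, hi, one_zpow]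
        rw [← zpow_natCast, ← zpow_mul] at h1
        have h2 := hcinf _ h1
        rcases mul_eq_zero.1 h2 with h | h
        · exact absurd h (by positivity)
        · exact h
      have h1 : y ^ (a * m) = 1 := by
        rw [zpow_mul, ha', zpow_natCast, ht]
      have h2 := hyinf _ h1
      rcases mul_eq_zero.1 h2 with h | h
      · rw [h, zpow_zero] at ha'
        exact ht1 ha'.symm
      · exact absurd h (by positivity)
    have hdec : ∀ i : Fin k, ∃ a : Fin m, ∃ z ∈ N, t ^ (a : ℕ) * z = c ^ (i : ℕ) := by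
      intro i
      have h1 : c ^ (i : ℕ) ∈ Subgroup.zpowers t ⊔ N := by rw [hL]; trivial
      rw [Subgroup.mem_sup_of_normal_right] at h1
      obtain ⟨y, ⟨a, rfl⟩, z, hz, hyz⟩ := h1
      have hm' : (0 : ℤ) < m := by exact_mod_cast hm
      have h2 : 0 ≤ a % m := Int.emod_nonneg _ hm'.ne'
      have h3 : a % m < m := Int.emod_lt_of_pos _ hm'
      refine ⟨⟨(a % m).toNat, by omega⟩, z, hz, ?_⟩
      rw [← hyz]
      congr 1
      show t ^ (a % m).toNat = t ^ a
      rw [← zpow_natCast, Int.toNat_of_nonneg h2]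
      conv_rhs => rw [← Int.emod_add_mul_ediv a m]
      rw [zpow_add, zpow_mul, zpow_natCast, ht, one_zpow, mul_one]
    choose F z hz hF using hdec
    obtain ⟨i, j, hij, hFij⟩ := Fintype.exists_ne_map_eq_of_card_lt F (by simp [hk])
    have h1 : (z i)⁻¹ * z j ∈ N := mul_mem (inv_mem (hz i)) (hz j)
    have h2 : (c ^ (i : ℕ))⁻¹ * c ^ (j : ℕ) = (z i)⁻¹ * z j := by
      rw [← hF i, ← hF j, hFij]
      group
    rw [← h2] at h1
    obtain ⟨l, hl⟩ := h1
    have h4 : c ^ ((k : ℤ) * l) = c ^ ((j : ℤ) - (i : ℤ)) := by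
      have h5 : (c ^ k) ^ l = (c ^ (i : ℕ))⁻¹ * c ^ (j : ℕ) := hl
      rw [zpow_mul, zpow_natCast, h5, zpow_sub, zpow_natCast, zpow_natCast]
      exact (Commute.refl c).pow_pow j i |>.inv_right.eq.symm
    have h5 := hzinj _ _ h4
    have hi := i.2
    have hj := j.2
    have hl0 : l = 0 := by
      by_contra hl0
      rcases lt_or_gt_of_ne hl0 with h | h
      · have : (k : ℤ) * l ≤ k * (-1) := mul_le_mul_of_nonneg_left (by omega) (by positivity)
        omega
      · have : (k : ℤ) * 1 ≤ k * l := mul_le_mul_of_nonneg_left (by omega) (by positivity)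
        omega
    rw [hl0, mul_zero] at h5
    exact hij (Fin.ext (by omega))
  have hpow : ∀ g : G, g ^ C.index ∈ C := by
    intro g
    have h1 : ((QuotientGroup.mk g : G ⧸ C)) ^ C.index = 1 := pow_card_eq_one'
    rw [← QuotientGroup.mk_pow] at h1
    exact (QuotientGroup.eq_one_iff _).1 h1
  have hidx : 0 < C.index := Nat.pos_of_ne_zero hCf.index_ne_zero
  have hcent : ∀ g : G, g * c * g⁻¹ = c := by
    intro g
    by_cases hg : g = 1
    · rw [hg]; group
    obtain ⟨j, hj⟩ := hmem _ (hpow g)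
    obtain ⟨e, he⟩ := hconj g
    have hj0 : j ≠ 0 := by
      rintro rfl
      rw [zpow_zero] at hj
      exact hg (htf g _ hidx hj.symm)
    have h1 : (g * c * g⁻¹) ^ j = c ^ j := by
      rw [conj_zpow, hj, ← pow_succ', pow_succ, mul_inv_cancel_right]
    rw [← he, ← zpow_mul] at h1
    have h2 := hzinj _ _ h1
    have h3 : e = 1 := by
      have : (e - 1) * j = 0 := by rw [sub_mul, h2]; ring
      rcases mul_eq_zero.1 this with h | h
      · omega
      · exact absurd h hj0
    rw [← he, h3, zpow_one]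
  have hCc : C ≤ Subgroup.center G := by
    intro x hx
    obtain ⟨k, rfl⟩ := hmem x hx
    apply Subgroup.zpow_mem
    rw [Subgroup.mem_center_iff]
    intro g
    have := hcent g
    rw [mul_inv_eq_iff_eq_mul] at this
    exact this
  have hcf : (Subgroup.center G).FiniteIndex := Subgroup.finiteIndex_of_le hCc
  have hinj : Function.Injective (MonoidHom.transferCenterPow G) := by
    rw [injective_iff_map_eq_one]
    intro g hg
    have h1 : g ^ (Subgroup.center G).index = 1 := by
      rw [← MonoidHom.transferCenterPow_apply, hg]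
      rfl
    exact htf g _ (Nat.pos_of_ne_zero hcf.index_ne_zero) h1
  have hcomm : ∀ x y : G, x * y = y * x := by
    intro x y
    apply hinj
    rw [map_mul, map_mul]
    apply Subtype.ext
    exact (Subgroup.mem_center_iff.1 (MonoidHom.transferCenterPow G y).2 _)
  let ψ : G →* C :=
    { toFun := fun g => ⟨g ^ C.index, hpow g⟩
      map_one' := Subtype.ext (one_pow _)
      map_mul' := fun x y => Subtype.ext ((show Commute x y from hcomm x y).mul_pow _) }
  have hψ : Function.Injective ψ := by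
    rw [injective_iff_map_eq_one]
    intro g hg
    exact htf g _ hidx (congrArg Subtype.val hg)
  have hCcyc : IsCyclic C := h3 C hCne
  exact hnc (isCyclic_of_injective ψ hψ)

theorem normal_central [Infinite G] (hnc : ¬ IsCyclic G)
    (h3 : ∀ H : Subgroup G, H ≠ ⊤ → IsCyclic H) (N : Subgroup G) (hN : N.Normal) (hNt : N ≠ ⊤) :
    N ≤ Subgroup.center G := by
  obtain ⟨⟨c, hcN⟩, hgen⟩ := (h3 N hNt).exists_generator
  have hmem : ∀ x ∈ N, ∃ k : ℤ, c ^ k = x := by
    intro x hx
    obtain ⟨k, hk⟩ := hgen ⟨x, hx⟩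
    exact ⟨k, congrArg Subtype.val hk⟩
  have hconj : ∀ g : G, ∃ e : ℤ, c ^ e = g * c * g⁻¹ := fun g => hmem _ (hN.conj_mem c hcN g)
  have hT : (Set.range (fun g : G => g * c * g⁻¹)).Finite := by
    by_cases hfo : IsOfFinOrder c
    · have h1 : Finite (Subgroup.zpowers c) := finite_zpowers.2 hfo
      have h2 : (Subgroup.zpowers c : Set G).Finite := h1
      refine h2.subset ?_
      rintro _ ⟨g, rfl⟩
      obtain ⟨e, he⟩ := hconj g
      exact ⟨e, he⟩
    · have hcinf : ∀ k : ℤ, c ^ k = 1 → k = 0 := by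
        intro k hk
        by_contra hk0
        exact hfo (isOfFinOrder_iff_zpow_eq_one.2 ⟨k, hk0, hk⟩)
      refine (Set.toFinite {c, c⁻¹}).subset ?_
      rintro _ ⟨g, rfl⟩
      obtain ⟨e, he⟩ := hconj g
      obtain ⟨f, hf⟩ := hconj g⁻¹
      have h1 : c ^ (e * f) = c := by
        rw [zpow_mul, he, conj_zpow, hf]
        group
      have h2 : c ^ (e * f - 1) = 1 := by
        rw [zpow_sub, h1, zpow_one, mul_inv_cancel]
      have h3 : e * f = 1 := by
        have := hcinf _ h2
        omega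
      rcases Int.eq_one_or_neg_one_of_mul_eq_one h3 with h | h
      · left
        show g * c * g⁻¹ = c
        rw [← he, h, zpow_one]
      · right
        show g * c * g⁻¹ = c⁻¹
        rw [← he, h, zpow_neg, zpow_one]
  let Z : Subgroup G := Subgroup.centralizer {c}
  have hZm : ∀ g : G, g ∈ Z ↔ g * c * g⁻¹ = c := by
    intro g
    rw [Subgroup.mem_centralizer_singleton_iff, mul_inv_eq_iff_eq_mul]
  have hfinT : Finite (Set.range (fun g : G => g * c * g⁻¹)) := hT
  have hfQ : Finite (G ⧸ Z) := by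
    refine Finite.of_injective (fun q : G ⧸ Z =>
      (⟨q.out * c * (q.out)⁻¹, ⟨q.out, rfl⟩⟩ : Set.range (fun g : G => g * c * g⁻¹))) ?_
    intro q q' h
    have h1 : q.out * c * (q.out)⁻¹ = q'.out * c * (q'.out)⁻¹ := congrArg Subtype.val h
    have h2 : (q.out)⁻¹ * q'.out ∈ Z := by
      rw [hZm]
      calc (q.out)⁻¹ * q'.out * c * ((q.out)⁻¹ * q'.out)⁻¹
          = (q.out)⁻¹ * (q'.out * c * (q'.out)⁻¹) * q.out := by group
        _ = (q.out)⁻¹ * (q.out * c * (q.out)⁻¹) * q.out := by rw [h1]
        _ = c := by group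
    rw [← QuotientGroup.eq, QuotientGroup.out_eq', QuotientGroup.out_eq'] at h2
    exact h2
  have hZtop : Z = ⊤ := no_fi hnc h3 Z Subgroup.finiteIndex_of_finite_quotient
  intro x hx
  obtain ⟨k, rfl⟩ := hmem x hx
  apply Subgroup.zpow_mem
  rw [Subgroup.mem_center_iff]
  intro g
  have hg : g ∈ Z := by rw [hZtop]; trivial
  have := (hZm g).1 hg
  rw [mul_inv_eq_iff_eq_mul] at this
  exact this

theorem noncomm [Infinite G] (hfg : Group.FG G) (hfi : ∀ H : Subgroup G, H.FiniteIndex → H = ⊤) :
    ¬ ∀ x y : G, x * y = y * x := by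
  intro hcomm
  let _ : CommGroup G := { (inferInstance : Group G) with mul_comm := hcomm }
  obtain ⟨ι, j, _, _, p, hp, e, ⟨E⟩⟩ := CommGroup.equiv_free_prod_prod_multiplicative_zmod G
  have hz : ∀ i, NeZero (p i ^ e i) := fun i => ⟨pow_ne_zero _ (hp i).ne_zero⟩
  rcases isEmpty_or_nonempty j with hj | ⟨⟨j0⟩⟩
  · have h1 : Finite ((j → Multiplicative ℤ) × ((i : ι) → Multiplicative (ZMod (p i ^ e i)))) := by
      have h2 : ∀ i, Finite (Multiplicative (ZMod (p i ^ e i))) := fun i =>
        inferInstanceAs (Finite (ZMod (p i ^ e i)))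
      infer_instance
    have : Finite G := Finite.of_equiv _ E.symm.toEquiv
    exact not_finite G
  · let q : Multiplicative ℤ →* Multiplicative (ZMod 2) :=
      AddMonoidHom.toMultiplicative (Int.castAddHom (ZMod 2))
    let r : G →* Multiplicative (ZMod 2) :=
      q.comp ((Pi.evalMonoidHom (fun _ : j => Multiplicative ℤ) j0).comp
        ((MonoidHom.fst _ _).comp E.toMonoidHom))
    have hfin : Finite (Multiplicative (ZMod 2)) := inferInstanceAs (Finite (ZMod 2))
    have hk : r.ker = ⊤ := hfi _ inferInstance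
    let x : G := E.symm (fun _ => Multiplicative.ofAdd 1, 1)
    have hx : x ∈ r.ker := by rw [hk]; trivial
    have h1 : r x = Multiplicative.ofAdd (1 : ZMod 2) := by
      show q ((E x).1 j0) = _
      rw [show E x = (fun _ => Multiplicative.ofAdd 1, 1) from E.apply_symm_apply _]
      show Multiplicative.ofAdd (((1 : ℤ) : ZMod 2)) = _
      rw [Int.cast_one]
    rw [MonoidHom.mem_ker, h1] at hx
    have h2 : (1 : ZMod 2) = 0 := hx
    exact one_ne_zero h2

end Pool.Agent.Q142.FM
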