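import Pool.Agent.Q142.FM.T3
import Pool.Agent.Q142.FM.RE

set_option autoImplicit false

/-! Infinite non-cyclic groups all of whose proper subgroups are cyclic: the central quotient and
decision problems. -/

namespace Pool.Agent.Q142.FM

open Pool.Agent.Helper227
open FreeGroup (invRev)

variable {G : Type} [Group G]

theorem central_quot [Infinite G] (hfg : Group.FG G) (hnc : ¬ IsCyclic G)
    (h3 : ∀ H : Subgroup G, H ≠ ⊤ → IsCyclic H) :
    Subgroup.center G ≠ ⊤ ∧ Infinite (G ⧸ Subgroup.center G) ∧
      IsSimpleGroup (G ⧸ Subgroup.center G) ∧ (¬ IsCyclic (G ⧸ Subgroup.center G)) ∧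
      ∀ H : Subgroup (G ⧸ Subgroup.center G), H ≠ ⊤ → IsCyclic H := by
  have hfi := no_fi hnc h3
  have hncomm := noncomm hfg hfi
  have hZ : Subgroup.center G ≠ ⊤ := by
    intro h
    apply hncomm
    intro x y
    have : y ∈ Subgroup.center G := by rw [h]; trivial
    exact Subgroup.mem_center_iff.1 this x
  refine ⟨hZ, ?_, ?_, ?_, ?_⟩
  · by_contra hcon
    have hfQ : Finite (G ⧸ Subgroup.center G) := not_infinite_iff_finite.1 hcon
    exact hZ (hfi _ Subgroup.finiteIndex_of_finite_quotient)
  · have hnt : Nontrivial (G ⧸ Subgroup.center G) := QuotientGroup.nontrivial_iff.2 hZ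
    refine { exists_pair_ne := hnt.exists_pair_ne, eq_bot_or_eq_top_of_normal := ?_ }
    intro N hN
    by_cases ht : N.comap (QuotientGroup.mk' (Subgroup.center G)) = ⊤
    · right
      rw [eq_top_iff]
      intro y _
      obtain ⟨x, rfl⟩ := QuotientGroup.mk'_surjective _ y
      have : x ∈ N.comap (QuotientGroup.mk' (Subgroup.center G)) := by rw [ht]; trivial
      exact this
    · left
      have h1 := normal_central hnc h3 _ (hN.comap (QuotientGroup.mk' (Subgroup.center G))) ht
      rw [eq_bot_iff]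
      intro y hy
      obtain ⟨x, rfl⟩ := QuotientGroup.mk'_surjective _ y
      exact Subgroup.mem_bot.2 ((QuotientGroup.eq_one_iff x).2 (h1 hy))
  · intro hcyc
    apply hncomm
    have h1 := (QuotientGroup.mk' (Subgroup.center G)).isMulCommutative_of_isCyclic_of_ker_le_center
      (by rw [QuotientGroup.ker_mk'])
    exact h1.is_comm.comm
  · intro H hH
    have h1 : H.comap (QuotientGroup.mk' (Subgroup.center G)) ≠ ⊤ := by
      intro h
      apply hH
      rw [eq_top_iff]
      intro y _
      obtain ⟨x, rfl⟩ := QuotientGroup.mk'_surjective _ y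
      have : x ∈ H.comap (QuotientGroup.mk' (Subgroup.center G)) := by rw [h]; trivial
      exact this
    have h2 := h3 _ h1
    let r : H.comap (QuotientGroup.mk' (Subgroup.center G)) →* H :=
      ((QuotientGroup.mk' (Subgroup.center G)).comp (Subgroup.subtype _)).codRestrict H
        (fun x => x.2)
    refine isCyclic_of_surjective r ?_
    rintro ⟨y, hy⟩
    obtain ⟨x, rfl⟩ := QuotientGroup.mk'_surjective _ y
    exact ⟨⟨x, hy⟩, rfl⟩

section Dec

variable {n : ℕ} {α : Type} [Primcodable α]

/-- Powers of a word. -/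
def pwW (w : Wd n) (k : ℕ) : Wd n := (List.range k).flatMap (fun _ => w)

theorem pwW_pr : Primrec₂ (pwW : Wd n → ℕ → Wd n) := by
  unfold pwW
  exact Primrec.list_flatMap (Primrec.list_range.comp Primrec.snd)
    (Primrec.fst.comp Primrec.fst)

theorem ev_pwW (f : FreeGroup (Fin n) →* G) (w : Wd n) (k : ℕ) :
    f (FreeGroup.mk (pwW w k)) = f (FreeGroup.mk w) ^ k := by
  induction k with
  | zero =>
    show f (FreeGroup.mk []) = _
    rw [← FreeGroup.one_eq_mk, map_one, pow_zero]
  | succ k ih =>
    have h1 : pwW w (k + 1) = pwW w k ++ w := by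
      unfold pwW
      rw [List.range_succ, List.flatMap_append]
      simp
    rw [h1, mk_app, map_mul, ih, pow_succ]

variable (hG : Group.IsFinitelyPresented G) (f : FreeGroup (Fin n) →* G)
  (hf : Function.Surjective f)

include hG hf

/-- Being a power of an element: semidecidable. -/
theorem s1_zpow {u v : α → Wd n} (hu : Primrec u) (hv : Primrec v) :
    S1 (fun a => f (FreeGroup.mk (u a)) ∈ Subgroup.zpowers (f (FreeGroup.mk (v a)))) := by
  have h1 : S1 (fun a => ∃ k : ℕ, f (FreeGroup.mk (u a)) = f (FreeGroup.mk (pwW (v a) k)) ∨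
      f (FreeGroup.mk (u a)) = f (FreeGroup.mk (invRev (pwW (v a) k)))) := by
    refine S1.ex (p := fun (a : α) (k : ℕ) =>
      f (FreeGroup.mk (u a)) = f (FreeGroup.mk (pwW (v a) k)) ∨
      f (FreeGroup.mk (u a)) = f (FreeGroup.mk (invRev (pwW (v a) k)))) ?_
    refine S1.or ?_ ?_
    · exact s1_eq hG f hf (hu.comp Primrec.fst)
        (pwW_pr.comp (hv.comp Primrec.fst) Primrec.snd)
    · exact s1_eq hG f hf (hu.comp Primrec.fst)
        (invRev_pr.comp (pwW_pr.comp (hv.comp Primrec.fst) Primrec.snd))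
  refine h1.of_eq (fun a => ?_)
  rw [Subgroup.mem_zpowers_iff]
  constructor
  · rintro ⟨k, h | h⟩
    · rw [ev_pwW] at h
      exact ⟨k, by rw [h, zpow_natCast]⟩
    · rw [mk_inv, map_inv, ev_pwW] at h
      exact ⟨-k, by rw [h, zpow_neg, zpow_natCast]⟩
  · rintro ⟨k, hk⟩
    refine ⟨k.natAbs, ?_⟩
    rw [mk_inv, map_inv, ev_pwW, ← hk]
    rcases Int.natAbs_eq k with h | h
    · left
      conv_lhs => rw [h]
      rw [zpow_natCast]
    · right
      conv_lhs => rw [h]
      rw [zpow_neg, zpow_natCast]

/-- Membership in the centre: semidecidable. -/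
theorem s1_center : S1 (fun w : Wd n => f (FreeGroup.mk w) ∈ Subgroup.center G) := by
  have h1 : S1 (fun w : Wd n => ∀ i : Fin n, f (FreeGroup.mk ([(i, true)] ++ w)) =
      f (FreeGroup.mk (w ++ [(i, true)]))) := by
    refine s1_fin_all (fun i => ?_)
    exact s1_eq hG f hf (Primrec.list_append.comp (Primrec.const _) Primrec.id)
      (Primrec.list_append.comp Primrec.id (Primrec.const _))
  refine h1.of_eq (fun w => ?_)
  rw [Subgroup.mem_center_iff]
  constructor
  · intro h g
    obtain ⟨z, rfl⟩ := hf g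
    induction z using FreeGroup.induction_on with
    | C1 => rw [map_one, one_mul, mul_one]
    | of i =>
      have := h i
      rw [mk_app, mk_app, map_mul, map_mul] at this
      exact this
    | inv_of i ih =>
      rw [map_inv]
      have h2 : Commute (f (FreeGroup.of i)) (f (FreeGroup.mk w)) := ih
      exact h2.inv_left.eq
    | mul x y hx hy =>
      rw [map_mul]
      have h2 : Commute (f x) (f (FreeGroup.mk w)) := hx
      have h3 : Commute (f y) (f (FreeGroup.mk w)) := hy
      exact (h2.mul_left h3).eq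
  · intro h i
    rw [mk_app, mk_app, map_mul, map_mul]
    exact h _

/-- Membership in the normal closure of an element: semidecidable. -/
theorem s1_ncl (v : Wd n) :
    S1 (fun w : Wd n => f (FreeGroup.mk v) ∈ Subgroup.normalClosure {f (FreeGroup.mk w)}) := by
  have h1 : S1 (fun w : Wd n => ∃ d : List (Wd n × (Wd n × Bool)), (∀ t ∈ d, t.2.1 = w) ∧
      f (FreeGroup.mk v) = f (FreeGroup.mk (flatW d))) := by
    refine S1.ex (p := fun (w : Wd n) (d : List (Wd n × (Wd n × Bool))) =>
      (∀ t ∈ d, t.2.1 = w) ∧ f (FreeGroup.mk v) = f (FreeGroup.mk (flatW d))) ?_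
    refine S1.and ?_ (s1_eq hG f hf (Primrec.const v) (flatW_pr.comp Primrec.snd))
    refine S1.all_mem (p := fun (x : Wd n × List (Wd n × (Wd n × Bool)))
      (t : Wd n × (Wd n × Bool)) => t.2.1 = x.1) ?_ Primrec.snd
    exact S1.of_prim (Primrec.eq.comp (Primrec.fst.comp (Primrec.snd.comp Primrec.snd))
      (Primrec.fst.comp Primrec.fst))
  refine h1.of_eq (fun w => ?_)
  have h2 : ({f (FreeGroup.mk w)} : Set G) = {y | ∃ w' ∈ ({w} : Set (Wd n)),
      y = f (FreeGroup.mk w')} := by
    ext y
    simp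
  rw [h2, mem_ncl_iff f hf]
  simp only [Set.mem_singleton_iff]

/-- Generating the whole group: semidecidable. -/
theorem s1_top : S1 (fun L : List (Wd n) =>
    Subgroup.closure {x | ∃ w ∈ L, x = f (FreeGroup.mk w)} = ⊤) := by
  have h0 : ∀ (L : List (Wd n)) (x : G),
      x ∈ Subgroup.closure {x | ∃ w ∈ L, x = f (FreeGroup.mk w)} ↔
      ∃ d : List (Wd n × (Wd n × Bool)), (∀ t ∈ d, t.1 = [] ∧ t.2.1 ∈ L) ∧
        x = f (FreeGroup.mk (flatW d)) := by
    intro L x
    have hst : ∀ w ∈ L, ∀ b : Bool, ∃ t : Wd n × (Wd n × Bool), (t.1 = [] ∧ t.2.1 ∈ L) ∧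
        f (FreeGroup.mk (stW t)) = if b = true then f (FreeGroup.mk w) else (f (FreeGroup.mk w))⁻¹ := by
      intro w hw b
      refine ⟨([], (w, b)), ⟨rfl, hw⟩, ?_⟩
      rw [ev_st]
      show f (FreeGroup.mk []) * _ * (f (FreeGroup.mk []))⁻¹ = _
      rw [← FreeGroup.one_eq_mk, map_one, one_mul, inv_one, mul_one]
    constructor
    · intro hx
      induction hx using Subgroup.closure_induction'' with
      | mem y hy =>
        obtain ⟨w, hw, rfl⟩ := hy
        obtain ⟨t, ht, hty⟩ := hst w hw true
        refine ⟨[t], by simpa using ht, ?_⟩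
        rw [flat_cons, show flatW ([] : List (Wd n × (Wd n × Bool))) = [] from rfl,
          List.append_nil, hty, if_pos rfl]
      | inv_mem y hy =>
        obtain ⟨w, hw, rfl⟩ := hy
        obtain ⟨t, ht, hty⟩ := hst w hw false
        refine ⟨[t], by simpa using ht, ?_⟩
        rw [flat_cons, show flatW ([] : List (Wd n × (Wd n × Bool))) = [] from rfl,
          List.append_nil, hty, if_neg (by simp)]
      | one =>
        refine ⟨[], by simp, ?_⟩
        rw [show flatW ([] : List (Wd n × (Wd n × Bool))) = [] from rfl, ← FreeGroup.one_eq_mk,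
          map_one]
      | mul y z _ _ hy hz =>
        obtain ⟨d, h1, rfl⟩ := hy
        obtain ⟨e, h2, rfl⟩ := hz
        refine ⟨d ++ e, ?_, ?_⟩
        · intro t ht
          rcases List.mem_append.1 ht with h | h
          · exact h1 t h
          · exact h2 t h
        · unfold flatW
          rw [List.flatMap_append, mk_app, map_mul]
    · rintro ⟨d, hd, rfl⟩
      induction d with
      | nil =>
        rw [show flatW ([] : List (Wd n × (Wd n × Bool))) = [] from rfl, ← FreeGroup.one_eq_mk,
          map_one]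
        exact one_mem _
      | cons t d ih =>
        rw [flat_cons, mk_app, map_mul]
        apply mul_mem _ (ih (fun s hs => hd s (List.mem_cons_of_mem _ hs)))
        obtain ⟨ht1, ht2⟩ := hd t List.mem_cons_self
        rw [ev_st, ht1, ← FreeGroup.one_eq_mk, map_one, one_mul, inv_one, mul_one]
        have h1 : f (FreeGroup.mk t.2.1) ∈
            Subgroup.closure {x | ∃ w ∈ L, x = f (FreeGroup.mk w)} :=
          Subgroup.subset_closure ⟨t.2.1, ht2, rfl⟩
        by_cases hb : t.2.2 = true
        · rw [if_pos hb]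
          exact h1
        · rw [if_neg hb]
          exact inv_mem h1
  have h1 : S1 (fun L : List (Wd n) => ∀ i : Fin n, ∃ d : List (Wd n × (Wd n × Bool)),
      (∀ t ∈ d, t.1 = [] ∧ t.2.1 ∈ L) ∧
        f (FreeGroup.mk [(i, true)]) = f (FreeGroup.mk (flatW d))) := by
    refine s1_fin_all (fun i => ?_)
    refine S1.ex (p := fun (L : List (Wd n)) (d : List (Wd n × (Wd n × Bool))) =>
      (∀ t ∈ d, t.1 = [] ∧ t.2.1 ∈ L) ∧
        f (FreeGroup.mk [(i, true)]) = f (FreeGroup.mk (flatW d))) ?_
    refine S1.and ?_ (s1_eq hG f hf (Primrec.const _) (flatW_pr.comp Primrec.snd))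
    refine S1.all_mem (p := fun (x : List (Wd n) × List (Wd n × (Wd n × Bool)))
      (t : Wd n × (Wd n × Bool)) => t.1 = [] ∧ t.2.1 ∈ x.1) ?_ Primrec.snd
    refine S1.and (S1.of_prim (Primrec.eq.comp (Primrec.fst.comp Primrec.snd)
      (Primrec.const []))) ?_
    refine S1.of_prim ?_
    have h5 : PrimrecPred (fun x : (List (Wd n) × List (Wd n × (Wd n × Bool))) ×
        (Wd n × (Wd n × Bool)) => ∃ l ∈ x.1.1, x.2.2.1 = l) := by
      refine PP.ex_mem (f := fun x => x.1.1) (p := fun (x : (List (Wd n) ×
        List (Wd n × (Wd n × Bool))) × (Wd n × (Wd n × Bool))) (l : Wd n) => x.2.2.1 = l) ?_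
        (Primrec.fst.comp Primrec.fst)
      exact Primrec.eq.comp (Primrec.fst.comp (Primrec.snd.comp (Primrec.snd.comp Primrec.fst)))
        Primrec.snd
    exact h5.of_eq (by simp)
  refine h1.of_eq (fun L => ?_)
  constructor
  · intro h
    have h2 : ∀ i : Fin n, f (FreeGroup.of i) ∈
        Subgroup.closure {x | ∃ w ∈ L, x = f (FreeGroup.mk w)} := fun i => (h0 L _).2 (h i)
    rw [eq_top_iff]
    intro g _
    obtain ⟨z, rfl⟩ := hf g
    induction z using FreeGroup.induction_on with
    | C1 => rw [map_one]; exact one_mem _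
    | of i => exact h2 i
    | inv_of i ih => rw [map_inv]; exact inv_mem (ih trivial)
    | mul x y hx hy => rw [map_mul]; exact mul_mem (hx trivial) (hy trivial)
  · intro h i
    apply (h0 L _).1
    rw [h]
    trivial

end Dec

end Pool.Agent.Q142.FM
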